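import Pool.Agent.V11322.QR.Main

set_option autoImplicit false

/-!
# The equality `Ω_M = Ω^dRB_M = Ω^And_M` and the de Rham-Betti subobjects of `End(M)`; quadratic
# relations suffice

Let `K` be a field of algebraic numbers and `M = M_1 ⊕ … ⊕ M_N` a sum of polarised de Rham-Betti
objects of odd weight `w` and the same rank `n`, for instance `M_j = h^1 (A_j)` for abelian varieties
`A_j` of dimension `n / 2` over `K`. The polarisation of `M_j` is given by a matrix `Q_j` over `K` (on
the de Rham side) and by `polB n` (on the Betti side; every nondegenerate alternating form over `ℚ`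
has this matrix in some basis), and the period matrix `c_j` satisfies `c_j Q_j c_jᵀ = l • polB n`,
where `l = (2πi)^w` is transcendental. The torsor of the polarisations is `polTorsor Q`. We suppose
that no `c_j` is proportional to a matrix of algebraic numbers (`IsDatum`; for `h^1` of abelian
varieties this is a theorem of Schneider and Wüstholz). The polarisations are motivated classes, so
`Z_M ⊆ Ω_M ⊆ Ω^dRB_M ⊆ Ω^And_M ⊆ polTorsor Q`.

A de Rham-Betti subobject of `End(M)` with coefficients in `K` (`IsSubobject`) is a pair of subspaces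
`L` of `End(M_B)` and `R` of `End(M_dR)`, both rational over `K`, with `L = c R c⁻¹`.

1. `Ω_M = polTorsor Q` (and so `Ω_M = Ω^dRB_M = Ω^And_M`) if and only if every de Rham-Betti subobject
of `End(M)` is stable under the conjugation by the products of `N` symplectic matrices (`SubStable`).
So the equality of the smallest subtorsor with the torsor of motivated periods, a condition on all
tensor spaces `M^⊗a ⊗ (M^∨)^⊗b`, is equivalent to a condition on the single space `M ⊗ M^∨`: all its
de Rham-Betti subobjects are motivated.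

2. This holds if all homogeneous quadratic relations over `K` between the periods are consequences of
the polarisations (`QuadraticTrivial`). So quadratic relations decide; relations of higher degree
need not be considered.

3. If `Ω_M = polTorsor Q` then in all tensor powers of `M` the de Rham-Betti classes are exactly the
linear combinations of the products of polarisations.

The proof of 1: a subtorsor `T` containing `c` has a left and a right Lie algebra, which form a
subobject of `End(M)`. If it is stable under the symplectic groups it is the sum of some symplectic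
algebras and a space of scalars; the logarithmic derivatives of the period matrix show that it
contains everything. Conversely the isomorphisms that respect a given subobject form a subtorsor. The
work on the Lie algebras of subtorsors and 2 are due to the author of `Pool/Agent/Y123/ST`.
-/

open Matrix

namespace Pool.Agent.Results.MP_f11a48_ag.EndomorphismSubobjects

open Pool.Agent.V11322.QR (IsSubobject RationalOver)

/-- `T` is (the set of complex points of) a `K`-subtorsor of `GL_B = Iso (M_dR, M_B)`: it is closed
under `x y⁻¹ z`, and it is defined in `GL_B` by polynomials with coefficients in `K`. -/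
def IsSubtorsor (K : Subfield ℂ) {B : Type} [Fintype B] [DecidableEq B] (T : Set (Matrix B B ℂ)) :
    Prop :=
  (∀ x ∈ T, ∀ y ∈ T, ∀ z ∈ T, x * y⁻¹ * z ∈ T) ∧ ∃ I : Set (MvPolynomial (B × B) K),
    ∀ x : Matrix B B ℂ, x ∈ T ↔ IsUnit x ∧ ∀ p ∈ I,
      MvPolynomial.eval (fun b => x b.1 b.2) (MvPolynomial.map (algebraMap K ℂ) p) = 0

/-- `Ω` is the smallest `K`-subtorsor which contains the period matrix `c` -/
def IsOmega (K : Subfield ℂ) {B : Type} [Fintype B] [DecidableEq B] (c : Matrix B B ℂ)
    (Ω : Set (Matrix B B ℂ)) : Prop :=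
  IsSubtorsor K Ω ∧ c ∈ Ω ∧ ∀ T : Set (Matrix B B ℂ), IsSubtorsor K T → c ∈ T → Ω ⊆ T

/-- the alternating form with entries `2 (-1)^r` at `(r, s)`, `|r - s| = 1` -/
def polB (n : ℕ) : Matrix (Fin n) (Fin n) ℚ :=
  Matrix.of fun r s => if (r : ℕ) = s + 1 ∨ (s : ℕ) = r + 1 then 2 * (-1) ^ (r : ℕ) else 0

variable {n N : ℕ}

/-- `(X_1, …, X_N)` respects the polarisations, with multiplier `μ` -/
def Respects (Q : Fin N → Matrix (Fin n) (Fin n) ℂ) (X : Fin N → Matrix (Fin n) (Fin n) ℂ)
    (μ : ℂ) : Prop :=
  ∀ j, X j * Q j * (X j)ᵀ = μ • (polB n).map (algebraMap ℚ ℂ)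

/-- the torsor of the block diagonal matrices which respect the polarisations, with the same
multiplier -/
def polTorsor (Q : Fin N → Matrix (Fin n) (Fin n) ℂ) :
    Set (Matrix (Fin n × Fin N) (Fin n × Fin N) ℂ) :=
  {x | ∃ (X : Fin N → Matrix (Fin n) (Fin n) ℂ) (μ : ℂ), μ ≠ 0 ∧ x = Matrix.blockDiagonal X ∧
    Respects Q X μ}

/-- the data: algebraic numbers, polarisations, period matrices which are not proportional to
algebraic matrices, and the transcendental multiplier -/
structure IsDatum (K : Subfield ℂ) (Q c : Fin N → Matrix (Fin n) (Fin n) ℂ) (l : ℂ) : Prop where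
  algebraic : ∀ x ∈ K, IsAlgebraic ℚ x
  deRham : ∀ j a b, Q j a b ∈ K
  transcendental : Transcendental ℚ l
  respects : Respects Q c l
  nonalgebraic : ∀ j, ¬ ∃ (ν : ℂ) (a : Matrix (Fin n) (Fin n) ℂ),
    (∀ i k, IsAlgebraic ℚ (a i k)) ∧ c j = ν • a

/-- every de Rham-Betti subobject of `End(M)` is stable under the conjugation by the products of
symplectic matrices -/
def SubStable (K : Subfield ℂ) (c : Fin N → Matrix (Fin n) (Fin n) ℂ) : Prop :=
  ∀ L R : Submodule ℂ (Matrix (Fin n × Fin N) (Fin n × Fin N) ℂ),
    IsSubobject K (blockDiagonal c) L R → ∀ g : Fin N → Matrix (Fin n) (Fin n) ℂ,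
      (∀ j, g j * (polB n).map (algebraMap ℚ ℂ) * (g j)ᵀ = (polB n).map (algebraMap ℚ ℂ)) →
        ∀ w ∈ L, blockDiagonal g * w * (blockDiagonal g)⁻¹ ∈ L

/-- the value of a polynomial over `K` at the entries of the matrices `X_j` -/
noncomputable def value {K : Subfield ℂ} (X : Fin N → Matrix (Fin n) (Fin n) ℂ)
    (P : MvPolynomial (Fin N × Fin n × Fin n) K) : ℂ :=
  MvPolynomial.eval (fun s => X s.1 s.2.1 s.2.2) (MvPolynomial.map (algebraMap K ℂ) P)

/-- all homogeneous quadratic relations over `K` between the periods are consequences of the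
polarisations -/
def QuadraticTrivial (K : Subfield ℂ) (Q c : Fin N → Matrix (Fin n) (Fin n) ℂ) : Prop :=
  ∀ P : MvPolynomial (Fin N × Fin n × Fin n) K, P.IsHomogeneous 2 → value c P = 0 →
    ∀ (X : Fin N → Matrix (Fin n) (Fin n) ℂ) (μ : ℂ), μ ≠ 0 → Respects Q X μ → value X P = 0

/-- `F`, a rational tensor in `M_B^⊗κ`, is the Betti part of a de Rham-Betti class of
`M^⊗κ ⊗ ℚ(m w)`: `l ^ m F` is the image of a tensor `a` over `K` under the comparison isomorphism -/
def IsClass (K : Subfield ℂ) (c : Fin N → Matrix (Fin n) (Fin n) ℂ) (l : ℂ) {κ : Type} [Fintype κ]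
    [DecidableEq κ] (m : ℕ) (F : (κ → Fin n × Fin N) → ℚ) : Prop :=
  ∃ a : (κ → Fin n × Fin N) → K, ∀ I, l ^ m * (F I : ℂ) =
    ∑ I', (∏ k, blockDiagonal c (I k) (I' k)) * (a I' : ℂ)

/-- the product of the polarisations of the summands `b l`, in the pairs of positions given by `e` -/
def polProduct (n : ℕ) {N : ℕ} {κ : Type} {m : ℕ} (e : Fin m × Fin 2 ≃ κ) (b : Fin m → Fin N) :
    (κ → Fin n × Fin N) → ℚ :=
  fun I => ∏ l, if (I (e (l, 0))).2 = b l ∧ (I (e (l, 1))).2 = b l then
    polB n (I (e (l, 0))).1 (I (e (l, 1))).1 else 0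

theorem result (hn : Even n) (hn0 : 0 < n) (hN : 0 < N) (K : Subfield ℂ)
    (Q c : Fin N → Matrix (Fin n) (Fin n) ℂ) (l : ℂ) (h : IsDatum K Q c l) :
    (IsOmega K (blockDiagonal c) (polTorsor Q) ↔ SubStable K c) ∧
    (QuadraticTrivial K Q c → IsOmega K (blockDiagonal c) (polTorsor Q)) ∧
    (IsOmega K (blockDiagonal c) (polTorsor Q) →
      ∀ (κ : Type) [Fintype κ] [DecidableEq κ] (m : ℕ) (F : (κ → Fin n × Fin N) → ℚ),
        IsClass K c l m F ↔ F ∈ Submodule.span ℚ
          {G | ∃ (e : Fin m × Fin 2 ≃ κ) (b : Fin m → Fin N), G = polProduct n e b}) := by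
  have hl0 : l ≠ 0 := by
    rintro rfl
    exact h.transcendental isAlgebraic_zero
  refine ⟨⟨fun ho => ?_, fun hs => ?_⟩, fun hq => ?_, fun ho κ _ _ m F => ?_⟩
  · exact Pool.Agent.V11322.QR.sub_of_omega hn hl0 h.respects ho
  · exact Pool.Agent.V11322.QR.omega_of_sub hn hn0 hN h.algebraic h.deRham h.transcendental
      h.respects h.nonalgebraic hs
  · exact Pool.Agent.V11322.QR.omega_of_quad hn hn0 hN h.algebraic h.deRham h.transcendental
      h.respects h.nonalgebraic hq
  · exact Pool.Agent.V11322.QR.cls_of_omega hn hn0 hN h.deRham hl0 h.respects ho κ m F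

end Pool.Agent.Results.MP_f11a48_ag.EndomorphismSubobjects
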