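import Pool.Agent.V11273.PV.G8

/-!
# De Rham-Betti classes of bounded type and height of almost all fibres of all families are fixed by the monodromy

A family (`Family X ι`) is an algebraic connection `c ∂_i Y = Y B_i` over the affine space with coordinates `x_i`, `i ∈ X`,
with an invertible matrix `Y` of analytic solutions on a nonempty connected open set `U`: for example `Y` is the period
matrix (rows: locally constant Betti basis, columns: algebraic de Rham basis) of any family of motives `M_x` over an open
part of the affine space, without any condition on the monodromy. (A family over another base `S` is covered as well: an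
open part of `S` is finite étale over an open part of an affine space, and the direct image of the family is a family over
this open part, the fibre of which over `x` is the sum of the fibres over the points of `S` over `x`.)

`galois` is the group of the constant matrices `g` such that all polynomial relations over `ℂ[x]` between the entries of
`Y` are relations between the entries of `g Y` (the differential Galois group, which is the Zariski closure of the
monodromy group for Gauss-Manin connections), `identityComponent` the intersection of its closed subgroups of finite index.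

For finitely many families and a tuple `s` of points of the bases let `M_s` be the sum of the fibres at the `s_j`; its
period matrix `periods F s` is block diagonal. A de Rham-Betti class in `M_s ^ ⊗n ⊗ (M_s ^ ∨) ^ ⊗m` is the same as a
homomorphism from the `m`-th to the `n`-th tensor power: a matrix `φ` over the field of definition `K` and a matrix `Φ`
over `ℚ` such that `Y(s) ^ ⊗n φ = Φ Y(s) ^ ⊗m`. (For classes in Tate twists `Φ` is a power of `2 π i` times a matrix over
`ℚ`.) These classes cut out the torsor `Ω ^ dRB` of the sum `M_s`. We show that outside of few points `s` all such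
classes of bounded type `(n, m)` and bounded height are invariant under the identity components, so that they come (by
the theorem of the fixed part of Deligne and André) from global classes of the family over a finite covering of the base;
if the invariants are motivated, for example if they are generated by the polarisation, all these classes are motivated.
In other words the part of `Ω ^ dRB` cut out by the classes of bounded type and height contains the orbit of the period
matrix under the monodromy.

The new input is `Pool.Agent.V11273.PV.bad_spec` (see also `MP_77d3f5_ag.AllFamilies`): the Picard-Vessiot theory for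
analytic solutions over bases of any dimension, and an elimination which reduces relations at a point, which do not hold on
the orbit of the identity component, to relations between algebraically independent functions.
-/

set_option autoImplicit false

open Filter NumberField

namespace Pool.Agent.Results.MP_f11a48_ag.InvariantTensors

/-- an algebraic connection on the affine space `ℂ ^ X` with a fundamental matrix `Y` of analytic solutions on `U` -/
structure Family (X ι : Type) [Fintype X] [DecidableEq X] [Fintype ι] [DecidableEq ι] where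
  /-- a nonempty connected open set -/
  U : Set (X → ℂ)
  isOpen : IsOpen U
  connected : IsPreconnected U
  nonempty : U.Nonempty
  /-- the matrix of the solutions (periods) -/
  Y : (X → ℂ) → Matrix ι ι ℂ
  analytic : ∀ a b, AnalyticOnNhd ℂ (fun x => Y x a b) U
  det_ne : ∀ x ∈ U, (Y x).det ≠ 0
  /-- the common denominator of the connection -/
  c : MvPolynomial X ℂ
  c_ne : c ≠ 0
  /-- the numerators -/
  B : X → Matrix ι ι (MvPolynomial X ℂ)
  /-- `c ∂_i Y = Y B_i` -/
  eqn : ∀ x ∈ U, ∀ i a b, MvPolynomial.eval x c * fderiv ℂ (fun x => Y x a b) x (Pi.single i 1) =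
    ∑ e, Y x a e * MvPolynomial.eval x (B i e b)

section
variable {X ι : Type} [Fintype X] [DecidableEq X] [Fintype ι] [DecidableEq ι]

/-- all polynomial relations between the entries of `Y` over `ℂ[x]` are relations between the entries of `g Y` -/
def Preserves (F : Family X ι) (g : Matrix ι ι ℂ) : Prop :=
  ∀ p : MvPolynomial (ι × ι) (MvPolynomial X ℂ),
    (∀ x ∈ F.U, MvPolynomial.eval₂ (MvPolynomial.eval x) (fun v => F.Y x v.1 v.2) p = 0) →
    ∀ x ∈ F.U, MvPolynomial.eval₂ (MvPolynomial.eval x) (fun v => (g * F.Y x) v.1 v.2) p = 0

/-- the Galois group -/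
def Family.galois (F : Family X ι) : Subgroup (GL ι ℂ) where
  carrier := {g | Preserves F (g : Matrix ι ι ℂ)}
  mul_mem' := fun ha hb => (Pool.Agent.V11273.PV.Gal F.U F.Y).mul_mem' ha hb
  one_mem' := (Pool.Agent.V11273.PV.Gal F.U F.Y).one_mem'
  inv_mem' := fun ha => (Pool.Agent.V11273.PV.Gal F.U F.Y).inv_mem' ha

/-- the subgroup `H` of `G` is defined by polynomial equations -/
def ClosedIn {G : Subgroup (GL ι ℂ)} (H : Subgroup G) : Prop :=
  ∃ E : Set (MvPolynomial (ι × ι) ℂ), ∀ h : G, h ∈ H ↔
    ∀ e ∈ E, MvPolynomial.eval (fun v => ((h : GL ι ℂ) : Matrix ι ι ℂ) v.1 v.2) e = 0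

/-- the elements of `G` which lie in all closed subgroups of finite index of `G` -/
def identityComponent (G : Subgroup (GL ι ℂ)) : Set (GL ι ℂ) :=
  {g | ∃ hg : g ∈ G, ∀ H : Subgroup G, H.FiniteIndex → ClosedIn H → (⟨g, hg⟩ : G) ∈ H}

end

/-- quotients of two integers of `K`, all conjugates of which are at most `T` -/
def HeightLe (K : Type) [Field K] [NumberField K] (T : ℝ) (x : K) : Prop :=
  ∃ a b : 𝓞 K, b ≠ 0 ∧ house (a : K) ≤ T ∧ house (b : K) ≤ T ∧ x = a / b

/-- `S` is covered by at most `m` hypersurfaces of degree at most `D` -/
def CoveredBy {X : Type} (D m : ℕ) (S : Set (X → ℂ)) : Prop :=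
  ∃ Φ : Finset (MvPolynomial X ℂ), Φ.card ≤ m ∧ (∀ P ∈ Φ, P ≠ 0 ∧ P.totalDegree ≤ D) ∧
    ∀ x ∈ S, ∃ P ∈ Φ, MvPolynomial.eval x P = 0

/-- the points of norm at most `k` at distance at least `1 / k` from the complement of `U` -/
def Inner {X : Type} [Fintype X] (U : Set (X → ℂ)) (k : ℕ) : Set (X → ℂ) :=
  {z | ‖z‖ ≤ k ∧ Metric.ball z (k : ℝ)⁻¹ ⊆ U}

/-- the matrix of the tensor power of a linear map -/
noncomputable def tensorPower {I : Type} (n : ℕ) (Z : Matrix I I ℂ) : Matrix (Fin n → I) (Fin n → I) ℂ :=
  Matrix.of fun a b => ∏ i, Z (a i) (b i)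

/-- the complex matrix `∑ ξ i * β i` -/
noncomputable def combination {A B : Type} {K : Type} [Field K] [NumberField K] (io : K →+* ℂ) {k : ℕ} (ξ : Fin k → ℂ)
    (β : Fin k → Matrix A B (𝓞 K)) : Matrix A B ℂ := Matrix.of fun a b => ∑ i, ξ i * io (β i a b : K)

section
variable {κ : Type} [Fintype κ] [DecidableEq κ] {X ι : κ → Type} [∀ j, Fintype (X j)] [∀ j, DecidableEq (X j)]
  [∀ j, Fintype (ι j)] [∀ j, DecidableEq (ι j)]

/-- the tuples of points of the domains of the families -/
def domain (F : ∀ j, Family (X j) (ι j)) : Set ((Σ j, X j) → ℂ) := {z | ∀ j, (fun i => z ⟨j, i⟩) ∈ (F j).U}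

/-- the period matrix of the sum of the fibres at `z_j` -/
noncomputable def periods (F : ∀ j, Family (X j) (ι j)) (z : (Σ j, X j) → ℂ) : Matrix (Σ j, ι j) (Σ j, ι j) ℂ :=
  Matrix.blockDiagonal' fun j => (F j).Y fun i => z ⟨j, i⟩

/-- the action of a tuple of group elements on the sum -/
noncomputable def action (g : ∀ j, GL (ι j) ℂ) : Matrix (Σ j, ι j) (Σ j, ι j) ℂ :=
  Matrix.blockDiagonal' fun j => (g j : Matrix (ι j) (ι j) ℂ)

/-- The exceptional tuples `s` of points with coordinates in `K`: they are of height at most `T`, in the compact set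
`Inner (domain F) k`, and there are matrices `φ` over the integers of `K` and `Φ = ∑ ξ i * β i`, `i < k`, `β i` over the
integers of `K`, all conjugates of the entries of `φ` and `β i` being at most `T ^ k`, with
`Y(s) ^ ⊗n φ = Φ Y(s) ^ ⊗m`, `n, m ≤ k`, but `g ^ ⊗n Φ ≠ Φ g ^ ⊗m` for some `g = (g_j)` in the identity components. -/
def Exceptional (F : ∀ j, Family (X j) (ι j)) (K : Type) [Field K] [NumberField K] (io : K →+* ℂ) (k : ℕ)
    (ξ : Fin k → ℂ) (T : ℝ) : Set ((Σ j, X j) → K) :=
  {s | (∀ i, HeightLe K T (s i)) ∧ (fun i => io (s i)) ∈ Inner (domain F) k ∧ ∃ n m : ℕ, n ≤ k ∧ m ≤ k ∧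
    ∃ (φ : Matrix (Fin n → Σ j, ι j) (Fin m → Σ j, ι j) (𝓞 K))
      (β : Fin k → Matrix (Fin n → Σ j, ι j) (Fin m → Σ j, ι j) (𝓞 K)),
      (∀ a b (ψ : K →+* ℂ), ‖ψ (φ a b : K)‖ ≤ T ^ (k : ℝ)) ∧
      (∀ i a b (ψ : K →+* ℂ), ‖ψ (β i a b : K)‖ ≤ T ^ (k : ℝ)) ∧
      tensorPower n (periods F fun i => io (s i)) * φ.map (fun x => io (x : K)) =
        combination io ξ β * tensorPower m (periods F fun i => io (s i)) ∧
      ∃ g : ∀ j, GL (ι j) ℂ, (∀ j, g j ∈ identityComponent (F j).galois) ∧
        tensorPower n (action g) * combination io ξ β ≠ combination io ξ β * tensorPower m (action g)}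

/-- Let `F_j`, `j` in a finite set, be any families. There is `ω → ∞` such that for all large `T`, all number fields `K`
of degree at most `ω T`, embedded in `ℂ`, and all complex numbers `ξ i`, `i < ω T` (for example the powers of `2 π i`),
the set `Exceptional F K io (ω T) ξ T` lies on at most `T ^ (1 / ω T)` hypersurfaces of degree at most `T ^ (1 / ω T)`,
and has at most `T ^ (1 / ω T) * N ^ (d - 1)` elements, where `d` is the dimension of the product of the bases and `N` is
the number of the elements of `K` of height at most `T`. Outside of this set, for all points `s` with coordinates in `K`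
of height at most `T` (in `Inner (domain F) (ω T)`), all de Rham-Betti classes of type `(n, m)` with `n, m ≤ ω T` of the
sum `M_s` of the fibres, and of its twists, of height at most `T ^ ω T`, are invariant under the identity components of
the Galois groups. -/
theorem result [Nonempty (Σ j, X j)] (F : ∀ j, Family (X j) (ι j)) :
    ∃ (ω : ℝ → ℕ) (T₀ : ℝ), Tendsto ω atTop atTop ∧ Monotone ω ∧ ∀ T, T₀ ≤ T → 0 < ω T ∧
      ∀ (K : Type) [Field K] [NumberField K], Module.finrank ℚ K ≤ ω T → ∀ (io : K →+* ℂ) (ξ : Fin (ω T) → ℂ),
        CoveredBy ⌊T ^ ((ω T : ℝ)⁻¹)⌋₊ ⌊T ^ ((ω T : ℝ)⁻¹)⌋₊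
          ((fun s i => io (s i)) '' Exceptional F K io (ω T) ξ T) ∧
        (Exceptional F K io (ω T) ξ T).Finite ∧
        ((Exceptional F K io (ω T) ξ T).ncard : ℝ) ≤
          T ^ ((ω T : ℝ)⁻¹) * ({x : K | HeightLe K T x}.ncard : ℝ) ^ (Fintype.card (Σ j, X j) - 1) :=
  Pool.Agent.V11273.PV.main_tensor (U := fun j => (F j).U) (Y := fun j => (F j).Y) (fun j => (F j).connected)
    (fun j => (F j).isOpen) (fun j => (F j).nonempty) (fun j => (F j).analytic) (fun j => (F j).det_ne)
    (fun j => (F j).c_ne) (fun j => (F j).eqn)

end

end Pool.Agent.Results.MP_f11a48_ag.InvariantTensors
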