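import Pool.Agent.V11273.PV.G8
import Pool.Agent.H107.Per2

/-!
# De Rham-Betti classes of the fibres over all algebraic points close to a point are fixed by the monodromy

A family (`Family X ι`) is an algebraic connection `c ∂_i Y = Y B_i` over the affine space with coordinates `x_i`, `i ∈ X`,
with an invertible matrix `Y` of analytic solutions on a nonempty connected open set `U`: for example `Y` is the period
matrix (rows: locally constant Betti basis, columns: algebraic de Rham basis) of any family of motives `M_x`, without any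
condition on the monodromy. `galois` is the group of the constant matrices `g` such that all polynomial relations over
`ℂ[x]` between the entries of `Y` are relations between the entries of `g Y` (the differential Galois group, which is the
Zariski closure of the monodromy group for Gauss-Manin connections), `identityComponent` the intersection of its closed
subgroups of finite index.

For finitely many families and a tuple `s` of points of the bases let `M_s` be the sum of the fibres at the `s_j`; its
period matrix `periods F s` is block diagonal. A de Rham-Betti class in `M_s ^ ⊗n ⊗ (M_s ^ ∨) ^ ⊗m` is the same as a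
homomorphism from the `m`-th to the `n`-th tensor power: a matrix `φ` over the field of definition `K` and a matrix `Φ`
over `ℚ` such that `Y(s) ^ ⊗n φ = Φ Y(s) ^ ⊗m`. (For classes in Tate twists `Φ` is a power of `2 π i` times a matrix over
`ℚ`.) These classes cut out the torsor `Ω ^ dRB` of `M_s`.

For one parameter: there is a set `E` of complex numbers of Hausdorff dimension zero such that for all points `z` of the
domain outside of `E`, all exponents `w > 0` (arbitrarily small), all number fields `K` and all `k`, for large `T`, at ALL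
points `s` with coordinates in `K` of height at most `T` at distance at most `T ^ (-w)` from `z` all the de Rham-Betti
classes of type `(n, m)`, `n, m ≤ k`, and height at most `T ^ k` of the fibre are invariant under the identity component
of the Galois group, so that they come (by the theorem of the fixed part) from global classes of the family over a finite
covering. For instance, for all real `z` outside of a set of dimension zero this holds for the fibres over all but finitely
many of the convergents of `z`. For bases of total dimension `d` and number fields of degree at most `D` the exceptional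
set is of dimension at most `2 D (d - 1) / w`.
-/

set_option autoImplicit false

open Filter NumberField

namespace Pool.Agent.Results.MP_f11a48_ag.InvariantTensorsNearPoints

/-- an algebraic connection on the affine space `ℂ ^ X` with a fundamental matrix `Y` of analytic solutions on `U` -/
structure Family (X ι : Type) [Fintype X] [DecidableEq X] [Fintype ι] [DecidableEq ι] where
  /-- a nonempty connected open set -/
  U : Set (X → ℂ)
  isOpen : IsOpen U
  connected : IsPreconnected U
  nonempty : U.Nonempty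
  /-- the matrix of the solutions (periods) -/
  Y : (X → ℂ) → Matrix ι ι ℂ
  analytic : ∀ a b, AnalyticOnNhd ℂ (fun x => Y x a b) U
  det_ne : ∀ x ∈ U, (Y x).det ≠ 0
  /-- the common denominator of the connection -/
  c : MvPolynomial X ℂ
  c_ne : c ≠ 0
  /-- the numerators -/
  B : X → Matrix ι ι (MvPolynomial X ℂ)
  /-- `c ∂_i Y = Y B_i` -/
  eqn : ∀ x ∈ U, ∀ i a b, MvPolynomial.eval x c * fderiv ℂ (fun x => Y x a b) x (Pi.single i 1) =
    ∑ e, Y x a e * MvPolynomial.eval x (B i e b)

section
variable {X ι : Type} [Fintype X] [DecidableEq X] [Fintype ι] [DecidableEq ι]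

/-- all polynomial relations between the entries of `Y` over `ℂ[x]` are relations between the entries of `g Y` -/
def Preserves (F : Family X ι) (g : Matrix ι ι ℂ) : Prop :=
  ∀ p : MvPolynomial (ι × ι) (MvPolynomial X ℂ),
    (∀ x ∈ F.U, MvPolynomial.eval₂ (MvPolynomial.eval x) (fun v => F.Y x v.1 v.2) p = 0) →
    ∀ x ∈ F.U, MvPolynomial.eval₂ (MvPolynomial.eval x) (fun v => (g * F.Y x) v.1 v.2) p = 0

/-- the Galois group -/
def Family.galois (F : Family X ι) : Subgroup (GL ι ℂ) where
  carrier := {g | Preserves F (g : Matrix ι ι ℂ)}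
  mul_mem' := fun ha hb => (Pool.Agent.V11273.PV.Gal F.U F.Y).mul_mem' ha hb
  one_mem' := (Pool.Agent.V11273.PV.Gal F.U F.Y).one_mem'
  inv_mem' := fun ha => (Pool.Agent.V11273.PV.Gal F.U F.Y).inv_mem' ha

/-- the subgroup `H` of `G` is defined by polynomial equations -/
def ClosedIn {G : Subgroup (GL ι ℂ)} (H : Subgroup G) : Prop :=
  ∃ E : Set (MvPolynomial (ι × ι) ℂ), ∀ h : G, h ∈ H ↔
    ∀ e ∈ E, MvPolynomial.eval (fun v => ((h : GL ι ℂ) : Matrix ι ι ℂ) v.1 v.2) e = 0

/-- the elements of `G` which lie in all closed subgroups of finite index of `G` -/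
def identityComponent (G : Subgroup (GL ι ℂ)) : Set (GL ι ℂ) :=
  {g | ∃ hg : g ∈ G, ∀ H : Subgroup G, H.FiniteIndex → ClosedIn H → (⟨g, hg⟩ : G) ∈ H}

end

/-- quotients of two integers of `K`, all conjugates of which are at most `T` -/
def HeightLe (K : Type) [Field K] [NumberField K] (T : ℝ) (x : K) : Prop :=
  ∃ a b : 𝓞 K, b ≠ 0 ∧ house (a : K) ≤ T ∧ house (b : K) ≤ T ∧ x = a / b

/-- the matrix of the tensor power of a linear map -/
noncomputable def tensorPower {I : Type} (n : ℕ) (Z : Matrix I I ℂ) : Matrix (Fin n → I) (Fin n → I) ℂ :=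
  Matrix.of fun a b => ∏ i, Z (a i) (b i)

/-- the complex matrix `∑ ξ i * β i` -/
noncomputable def combination {A B : Type} {K : Type} [Field K] [NumberField K] (io : K →+* ℂ) {k : ℕ} (ξ : Fin k → ℂ)
    (β : Fin k → Matrix A B (𝓞 K)) : Matrix A B ℂ := Matrix.of fun a b => ∑ i, ξ i * io (β i a b : K)

section
variable {κ : Type} [Fintype κ] [DecidableEq κ] {X ι : κ → Type} [∀ j, Fintype (X j)] [∀ j, DecidableEq (X j)]
  [∀ j, Fintype (ι j)] [∀ j, DecidableEq (ι j)]

/-- the tuples of points of the domains of the families -/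
def domain (F : ∀ j, Family (X j) (ι j)) : Set ((Σ j, X j) → ℂ) := {z | ∀ j, (fun i => z ⟨j, i⟩) ∈ (F j).U}

/-- the period matrix of the sum of the fibres at `z_j` -/
noncomputable def periods (F : ∀ j, Family (X j) (ι j)) (z : (Σ j, X j) → ℂ) : Matrix (Σ j, ι j) (Σ j, ι j) ℂ :=
  Matrix.blockDiagonal' fun j => (F j).Y fun i => z ⟨j, i⟩

/-- the action of a tuple of group elements on the sum -/
noncomputable def action (g : ∀ j, GL (ι j) ℂ) : Matrix (Σ j, ι j) (Σ j, ι j) ℂ :=
  Matrix.blockDiagonal' fun j => (g j : Matrix (ι j) (ι j) ℂ)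

/-- At all points `s` with coordinates in `K` of height at most `T` and with `‖s - z‖ ≤ T ^ (-w)` (maximum norm): for all
matrices `φ` over the integers of `K` and `Φ = ∑ ξ i * β i`, `i < k`, `β i` over the integers of `K`, all conjugates of the
entries of `φ` and `β i` being at most `T ^ k`, with `Y(s) ^ ⊗n φ = Φ Y(s) ^ ⊗m`, `n, m ≤ k`, we have
`g ^ ⊗n Φ = Φ g ^ ⊗m` for all `g = (g_j)` in the identity components. -/
def GoodNear (F : ∀ j, Family (X j) (ι j)) (ξ : ℕ → ℂ) (z : (Σ j, X j) → ℂ) (w : ℝ) (K : IntermediateField ℚ ℂ)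
    [NumberField K] (k : ℕ) (T : ℝ) : Prop :=
  ∀ s : (Σ j, X j) → K, (∀ i, HeightLe K T (s i)) → ‖(fun i => (s i : ℂ)) - z‖ ≤ T ^ (-w) →
    ∀ n m : ℕ, n ≤ k → m ≤ k → ∀ (φ : Matrix (Fin n → Σ j, ι j) (Fin m → Σ j, ι j) (𝓞 K))
      (β : Fin k → Matrix (Fin n → Σ j, ι j) (Fin m → Σ j, ι j) (𝓞 K)),
      (∀ a b (ψ : K →+* ℂ), ‖ψ (φ a b : K)‖ ≤ T ^ (k : ℝ)) →
      (∀ i a b (ψ : K →+* ℂ), ‖ψ (β i a b : K)‖ ≤ T ^ (k : ℝ)) →
      tensorPower n (periods F fun i => (s i : ℂ)) * φ.map (fun x => algebraMap K ℂ (x : K)) =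
        combination (algebraMap K ℂ) (fun i => ξ i) β * tensorPower m (periods F fun i => (s i : ℂ)) →
      ∀ g : ∀ j, GL (ι j) ℂ, (∀ j, g j ∈ identityComponent (F j).galois) →
        tensorPower n (action g) * combination (algebraMap K ℂ) (fun i => ξ i) β =
          combination (algebraMap K ℂ) (fun i => ξ i) β * tensorPower m (action g)

/-- the points with a small class which is not invariant -/
def Bad (F : ∀ j, Family (X j) (ι j)) (k : ℕ) (K : Type) [Field K] [NumberField K] (io : K →+* ℂ)
    (ξ : Fin k → ℂ) (T : ℝ) (s : (Σ j, X j) → K) : Prop :=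
  ∃ n m : ℕ, n ≤ k ∧ m ≤ k ∧
    ∃ (φ : Matrix (Fin n → Σ j, ι j) (Fin m → Σ j, ι j) (𝓞 K))
      (β : Fin k → Matrix (Fin n → Σ j, ι j) (Fin m → Σ j, ι j) (𝓞 K)),
      (∀ a b (ψ : K →+* ℂ), ‖ψ (φ a b : K)‖ ≤ T ^ (k : ℝ)) ∧
      (∀ i a b (ψ : K →+* ℂ), ‖ψ (β i a b : K)‖ ≤ T ^ (k : ℝ)) ∧
      tensorPower n (periods F fun i => io (s i)) * φ.map (fun x => io (x : K)) =
        combination io ξ β * tensorPower m (periods F fun i => io (s i)) ∧
      ∃ g : ∀ j, GL (ι j) ℂ, (∀ j, g j ∈ identityComponent (F j).galois) ∧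
        tensorPower n (action g) * combination io ξ β ≠ combination io ξ β * tensorPower m (action g)

lemma bad_mono (F : ∀ j, Family (X j) (ι j)) :
    Pool.Agent.H107.Per2.Mono (X := Σ j, X j) (fun k K [Field K] [NumberField K] io ξ T s => Bad F k K io ξ T s) := by
  intro k k' h K _ _ io ξ T T' hT hTT s hs
  obtain ⟨n, m, hn, hm, φ, β, h1, h2, h3, g, hg, h4⟩ := hs
  have hT' : 1 ≤ T' := hT.trans hTT
  have hpow : T ^ (k : ℝ) ≤ T' ^ (k' : ℝ) :=
    (Real.rpow_le_rpow (by linarith) hTT (Nat.cast_nonneg _)).trans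
      (Real.rpow_le_rpow_of_exponent_le hT' (by exact_mod_cast h))
  set β' : Fin k' → Matrix (Fin n → Σ j, ι j) (Fin m → Σ j, ι j) (𝓞 K) :=
    fun i => if hi : (i : ℕ) < k then β ⟨i, hi⟩ else 0 with hβ'
  have hcomb : combination io (Pool.Agent.H107.Per.res ξ k') β' = combination io (Pool.Agent.H107.Per.res ξ k) β := by
    ext a b
    simp only [combination, Matrix.of_apply]
    set f : ℕ → ℂ := fun i => if hi : i < k then ξ i * io ((β ⟨i, hi⟩ a b : 𝓞 K) : K) else 0 with hf
    have e1 : ∑ i : Fin k, Pool.Agent.H107.Per.res ξ k i * io ((β i a b : 𝓞 K) : K) = ∑ i : Fin k, f i := by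
      refine Finset.sum_congr rfl fun i _ => ?_
      simp only [hf, i.2, dif_pos, Pool.Agent.H107.Per.res]
    have e2 : ∑ i : Fin k', Pool.Agent.H107.Per.res ξ k' i * io ((β' i a b : 𝓞 K) : K) = ∑ i : Fin k', f i := by
      refine Finset.sum_congr rfl fun i _ => ?_
      simp only [hf, hβ', Pool.Agent.H107.Per.res]
      split_ifs with hi
      · rfl
      · simp
    rw [e1, e2, Fin.sum_univ_eq_sum_range f k, Fin.sum_univ_eq_sum_range f k']
    symm
    refine Finset.sum_subset (Finset.range_mono h) fun i _ hi => ?_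
    rw [Finset.mem_range] at hi
    simp only [hf, dif_neg hi]
  refine ⟨n, m, hn.trans h, hm.trans h, φ, β', fun a b ψ => (h1 a b ψ).trans hpow, fun i a b ψ => ?_, ?_, g, hg, ?_⟩
  · show ‖ψ (((if hi : (i : ℕ) < k then β ⟨i, hi⟩ else 0 : Matrix _ _ (𝓞 K)) a b : 𝓞 K) : K)‖ ≤ T' ^ (k' : ℝ)
    split_ifs with hi
    · exact (h2 _ a b ψ).trans hpow
    · simp only [Matrix.zero_apply, map_zero, norm_zero]
      positivity
  · rw [hcomb]
    exact h3
  · rw [hcomb]
    exact h4

lemma omega [Nonempty (Σ j, X j)] (F : ∀ j, Family (X j) (ι j)) :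
    Pool.Agent.V11273.PV.OmegaStm (fun k K [Field K] [NumberField K] io ξ T =>
      Pool.Agent.H107.Per2.EQ (Pool.Agent.V11273.PV.UU fun j => (F j).U)
        (fun k K [Field K] [NumberField K] io ξ T s => Bad F k K io ξ T s) k K io ξ T) :=
  Pool.Agent.V11273.PV.main_tensor (U := fun j => (F j).U) (Y := fun j => (F j).Y) (fun j => (F j).connected)
    (fun j => (F j).isOpen) (fun j => (F j).nonempty) (fun j => (F j).analytic) (fun j => (F j).det_ne)
    (fun j => (F j).c_ne) (fun j => (F j).eqn)

lemma good_of {F : ∀ j, Family (X j) (ι j)} {ξ : ℕ → ℂ} {z : (Σ j, X j) → ℂ} {w : ℝ} {K : IntermediateField ℚ ℂ}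
    [NumberField K] {k : ℕ} {T : ℝ}
    (h : ∀ s : (Σ j, X j) → K, (∀ i, Y120.HtLe K T (s i)) → ‖(fun i => (s i : ℂ)) - z‖ ≤ T ^ (-w) →
      ¬ Bad F k K (algebraMap K ℂ) (Pool.Agent.H107.Per.res ξ k) T s) :
    GoodNear F ξ z w K k T := by
  intro s hs hz n m hn hm φ β h1 h2 h3 g hg
  by_contra hne
  exact h s hs hz ⟨n, m, hn, hm, φ, β, h1, h2, h3, g, hg, hne⟩

/-- **Theorem.** Let `F_j`, `j` in a finite set, be families, `d` the dimension of the product of their bases, and `ξ i`
any complex numbers (for example the powers of `2 π i`).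
(1) If `d = 1` there is a set `E` of Hausdorff dimension `0` such that for all `z` in the domain outside of `E`, all
`w > 0`, all number fields `K ⊂ ℂ` and all `k`, the property `GoodNear F ξ z w K k T` holds for all large `T`.
(2) In general for all `D` and `w > 0` there is a set `E` of Hausdorff dimension at most `2 D (d - 1) / w` such that for
all `z` in the domain outside of `E`, all number fields `K ⊂ ℂ` of degree at most `D` and all `k`, the property
`GoodNear F ξ z w K k T` holds for all large `T`. -/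
theorem result [Nonempty (Σ j, X j)] (F : ∀ j, Family (X j) (ι j)) (ξ : ℕ → ℂ) :
    (Fintype.card (Σ j, X j) = 1 → ∃ E : Set ((Σ j, X j) → ℂ), dimH E = 0 ∧ ∀ z ∈ domain F, z ∉ E → ∀ w : ℝ, 0 < w →
      ∀ (K : IntermediateField ℚ ℂ) [NumberField K], ∀ k : ℕ, ∀ᶠ T : ℝ in atTop, GoodNear F ξ z w K k T) ∧
    ∀ (D : ℕ) (w : ℝ), 0 < w → ∃ E : Set ((Σ j, X j) → ℂ),
      dimH E ≤ ENNReal.ofReal (2 * D * ((Fintype.card (Σ j, X j) : ℝ) - 1) / w) ∧ ∀ z ∈ domain F, z ∉ E →
        ∀ (K : IntermediateField ℚ ℂ) [NumberField K], Module.finrank ℚ K ≤ D → ∀ k : ℕ,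
          ∀ᶠ T : ℝ in atTop, GoodNear F ξ z w K k T := by
  have hopen : IsOpen (Pool.Agent.V11273.PV.UU fun j => (F j).U) :=
    Pool.Agent.V11273.PV.UU_open fun j => (F j).isOpen
  have hcard : 1 ≤ Fintype.card (Σ j, X j) := Fintype.card_pos
  refine ⟨fun h1 => ?_, fun D w hw => ?_⟩
  · obtain ⟨E, hE, h⟩ := Pool.Agent.H107.Per2.near_zero h1 (bad_mono F) hopen (omega F) ξ
    refine ⟨E, hE, fun z hz hzE w hw K _ k => ?_⟩
    obtain ⟨T₁, hT₁⟩ := h z hz hzE w hw K k
    exact Filter.eventually_atTop.2 ⟨T₁, fun T hT => good_of (hT₁ T hT)⟩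
  · obtain ⟨E, hE, h⟩ := Pool.Agent.H107.Per2.near (bad_mono F) hopen (omega F) ξ D hw
    refine ⟨E, hE.trans (le_of_eq ?_), fun z hz hzE K _ hK k => ?_⟩
    · congr 2
      push_cast [Nat.cast_sub hcard]
      ring
    · obtain ⟨T₁, hT₁⟩ := h z hz hzE K hK k
      exact Filter.eventually_atTop.2 ⟨T₁, fun T hT => good_of (hT₁ T hT)⟩

end

end Pool.Agent.Results.MP_f11a48_ag.InvariantTensorsNearPoints
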