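import Pool.Agent.Results.MP_f11a48_ag.GeneralFamilies
import Pool.Agent.V11286.NE.Vol

/-!
# Relations of bounded degree between the periods of ALL members of an arbitrary one-parameter family in short windows along
# sequences are specialisations of functional relations: no exceptional fibres

Let `Z` be a fundamental matrix, regular at `z = 0`, of a system `f Z' = Z A` over `ℚ(z)` such that the entries of `Z` and of
`W = Z⁻¹` are G-functions, for example the matrix of the Gauss-Manin connection of a family of smooth projective varieties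
over `ℚ` with good fibre at `z = 0`, and let `Ω` be any invertible complex matrix (the periods of the fibre at `z = 0`). Then
`Ω Z(1/x)` is the period matrix of the fibre at `z = 1/x`.

The starting file `GeneralFamilies` shows that in each window `[N, N + N^c]` all polynomial relations of degree at most `δ`
between the periods of `k` members of the family at separated integers are specialisations of functional relations, outside a
set of at most `M` (unknown) integers. Here there are no exceptional fibres: let `v_n ≥ 1` be a sequence with exponent of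
convergence at most `τ`. For all `α > 0` outside a set of Hausdorff dimension at most `(1 - c + τ) / (1 - θ)`, `θ ≤ c`, and all
large `n`, this holds for ALL `k`-tuples of separated integers in the window `|m - α v_n| ≤ v_n ^ θ`, with no condition on the
size of the coefficients of the relations. If the exponent of convergence is zero (for example `v_n = 2 ^ n`), then almost
every `α` works for all `k`, all degrees, all number fields `K` and all the spaces `K + K π + ⋯ + K π ^ e` at the same time.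
-/

set_option autoImplicit false

open PowerSeries MeasureTheory Filter

namespace Pool.Agent.Results.MP_f11a48_ag.SequencesWithoutExceptions

/-- The arithmetic conditions in the definition of a G-function, for a power series with rational coefficients: geometric
growth of the coefficients and of their common denominators. -/
def GCond (g : ℚ⟦X⟧) : Prop := ∃ C : ℝ, (∀ m, |((coeff m g : ℚ) : ℝ)| ≤ C ^ (m + 1)) ∧
  ∀ m, ∃ d : ℕ, 0 < d ∧ (d : ℝ) ≤ C ^ (m + 1) ∧ ∀ j ≤ m, ∃ a : ℤ, (d : ℚ) * coeff j g = a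

/-- The entry `p = (i, j)` of the matrix `Ω Z(1/x)`. -/
noncomputable def period {n : ℕ} (Ω : Matrix (Fin n) (Fin n) ℂ) (Z : Matrix (Fin n) (Fin n) ℚ⟦X⟧) (x : ℝ)
    (p : Fin n × Fin n) : ℂ :=
  ∑ a, Ω p.1 a * ((∑' m : ℕ, ((coeff m (Z a p.2) : ℚ) : ℝ) * (1 / x) ^ m : ℝ) : ℂ)

/-- Every polynomial `P` in `k n²` variables of total degree at most `δ` with coefficients in `V` which vanishes at the periods
of the fibres at `m_1, …, m_k` is the specialisation `F(1/m_1, …, 1/m_k, X)` of a polynomial relation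
`F(1/x_1, …, 1/x_k, Ω Z(1/x_1), …, Ω Z(1/x_k)) = 0` which holds for all real `x_1, …, x_k > x₀`. -/
def Functional {n : ℕ} (Ω : Matrix (Fin n) (Fin n) ℂ) (Z : Matrix (Fin n) (Fin n) ℚ⟦X⟧) (x₀ δ : ℕ) (V : Submodule ℚ ℂ)
    {k : ℕ} (m : Fin k → ℕ) : Prop :=
  ∀ P : MvPolynomial (Fin k × (Fin n × Fin n)) ℂ, P.totalDegree ≤ δ → (∀ s, P.coeff s ∈ V) →
    MvPolynomial.aeval (fun q : Fin k × (Fin n × Fin n) => period Ω Z (m q.1) q.2) P = 0 →
    ∃ F : MvPolynomial (Fin k ⊕ (Fin k × (Fin n × Fin n))) ℂ,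
      (∀ x : Fin k → ℝ, (∀ l, (x₀ : ℝ) < x l) → MvPolynomial.aeval
        (Sum.elim (fun l => ((1 / x l : ℝ) : ℂ)) (fun q : Fin k × (Fin n × Fin n) => period Ω Z (x q.1) q.2)) F = 0) ∧
      MvPolynomial.aeval (Sum.elim (fun l => MvPolynomial.C ((1 / (m l : ℝ) : ℝ) : ℂ)) MvPolynomial.X) F = P

/-- The exponent of convergence of the sequence `v` is at most `τ`. -/
def ConvergenceExponentLe (v : ℕ → ℝ) (τ : ℝ) : Prop := ∀ s : ℝ, τ < s → Summable (fun n : ℕ => (v n) ^ (-s))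

/-- The space `K + K π + ⋯ + K π ^ e` (spanned by the products of the elements of `K` and the powers of `π`). -/
noncomputable def piSpace (K : IntermediateField ℚ ℂ) (e : ℕ) : Submodule ℚ ℂ :=
  ⨆ a : Fin (e + 1), (K.toSubalgebra.toSubmodule).map (LinearMap.mulRight ℚ ((Real.pi : ℂ) ^ (a : ℕ)))

/-- The theorem. The numbers `x₀` and `G` depend only on the family, `c` only on the family and on `k, δ, D`.
(1) For every `ℚ`-space `V` of complex numbers of dimension at most `D`, every sequence `v_l ≥ 1` with exponent of convergence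
at most `τ`, every `θ ≤ c` and all `α > 0` outside a set of Hausdorff dimension at most `(1 - c + τ) / (1 - θ)`: for all large
`l` and ALL `k`-tuples of integers `m_i` with `|m_i - α v_l| ≤ v_l ^ θ` and distances at least `G`, all relations of degree at
most `δ` with coefficients in `V` between the periods of the fibres at `1/m_i` are specialisations of functional relations.
(2) If the exponent of convergence is zero, then almost every `α > 0` works for all `k`, `δ`, `e` and all number fields `K`,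
with `V = K + K π + ⋯ + K π ^ e` and some `θ > 0` depending on them. (3) For instance `v_l = 2 ^ l`. -/
theorem result (n : ℕ) (f : Polynomial ℚ) (A : Matrix (Fin n) (Fin n) (Polynomial ℚ)) (Z W : Matrix (Fin n) (Fin n) ℚ⟦X⟧)
    (hf : f.coeff 0 ≠ 0)
    (hode : ∀ i j, (f : ℚ⟦X⟧) * PowerSeries.derivative ℚ (Z i j) = ∑ k, Z i k * (A k j : ℚ⟦X⟧))
    (hW : W * Z = 1) (hGZ : ∀ i j, GCond (Z i j)) (hGW : ∀ i j, GCond (W i j)) :
    ∃ x₀ G : ℕ,
      (∀ k δ D : ℕ, ∃ c : ℝ, 0 < c ∧ c < 1 ∧ ∀ Ω : Matrix (Fin n) (Fin n) ℂ, IsUnit Ω →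
        ∀ V : Submodule ℚ ℂ, Module.Finite ℚ V → Module.finrank ℚ V ≤ D →
        ∀ (v : ℕ → ℝ) (τ θ : ℝ), (∀ l, 1 ≤ v l) → 0 ≤ τ → ConvergenceExponentLe v τ → θ ≤ c →
        ∃ E : Set ℝ, dimH E ≤ ENNReal.ofReal ((1 - c + τ) / (1 - θ)) ∧ ∀ α : ℝ, 0 < α → α ∉ E →
          ∃ l₀ : ℕ, ∀ l : ℕ, l₀ ≤ l → ∀ m : Fin k → ℕ, (∀ i j, i ≠ j → (G : ℤ) ≤ |(m i : ℤ) - m j|) →
            (∀ i, |(m i : ℝ) - α * v l| ≤ (v l) ^ θ) → Functional Ω Z x₀ δ V m) ∧
      (∀ Ω : Matrix (Fin n) (Fin n) ℂ, IsUnit Ω → ∀ v : ℕ → ℝ, (∀ l, 1 ≤ v l) → ConvergenceExponentLe v 0 →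
        ∀ᵐ α : ℝ, 0 < α → ∀ (k δ e : ℕ) (K : IntermediateField ℚ ℂ), FiniteDimensional ℚ K → ∃ θ : ℝ, 0 < θ ∧
          ∃ l₀ : ℕ, ∀ l : ℕ, l₀ ≤ l → ∀ m : Fin k → ℕ, (∀ i j, i ≠ j → (G : ℤ) ≤ |(m i : ℤ) - m j|) →
            (∀ i, |(m i : ℝ) - α * v l| ≤ (v l) ^ θ) → Functional Ω Z x₀ δ (piSpace K e) m) ∧
      (∀ Ω : Matrix (Fin n) (Fin n) ℂ, IsUnit Ω →
        ∀ᵐ α : ℝ, 0 < α → ∀ (k δ e : ℕ) (K : IntermediateField ℚ ℂ), FiniteDimensional ℚ K → ∃ θ : ℝ, 0 < θ ∧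
          ∃ l₀ : ℕ, ∀ l : ℕ, l₀ ≤ l → ∀ m : Fin k → ℕ, (∀ i j, i ≠ j → (G : ℤ) ≤ |(m i : ℤ) - m j|) →
            (∀ i, |(m i : ℝ) - α * 2 ^ l| ≤ (2 : ℝ) ^ (θ * l)) → Functional Ω Z x₀ δ (piSpace K e) m) := by
  obtain ⟨x₀, G, hmain⟩ := Pool.Agent.Results.MP_f11a48_ag.GeneralFamilies.result n f A Z W hf hode hW hGZ hGW
  refine ⟨x₀, G, ?_⟩
  have h1 : ∀ k δ D : ℕ, ∃ c : ℝ, 0 < c ∧ c < 1 ∧ ∀ Ω : Matrix (Fin n) (Fin n) ℂ, IsUnit Ω →
        ∀ V : Submodule ℚ ℂ, Module.Finite ℚ V → Module.finrank ℚ V ≤ D →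
        ∀ (v : ℕ → ℝ) (τ θ : ℝ), (∀ l, 1 ≤ v l) → 0 ≤ τ → ConvergenceExponentLe v τ → θ ≤ c →
        ∃ E : Set ℝ, dimH E ≤ ENNReal.ofReal ((1 - c + τ) / (1 - θ)) ∧ ∀ α : ℝ, 0 < α → α ∉ E →
          ∃ l₀ : ℕ, ∀ l : ℕ, l₀ ≤ l → ∀ m : Fin k → ℕ, (∀ i j, i ≠ j → (G : ℤ) ≤ |(m i : ℤ) - m j|) →
            (∀ i, |(m i : ℝ) - α * v l| ≤ (v l) ^ θ) → Functional Ω Z x₀ δ V m := by
    intro k δ D
    obtain ⟨⟨M, c, hc, h⟩, -⟩ := hmain k δ D
    set c' : ℝ := min c 1 with hc'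
    have hc'0 : 0 < c' := lt_min hc one_pos
    have hc'1 : c' ≤ 1 := min_le_right _ _
    refine ⟨c' / 2, by positivity, by linarith, fun Ω hΩ V hV hVD v τ θ hv hτ hvτ hθ => ?_⟩
    choose! S hS using fun m (hm : 1 ≤ m) => h Ω hΩ V hV hVD m hm
    obtain ⟨X, hX, hX2⟩ := Pool.Agent.V11286.NE.no_exc M (c := c') (b := c' / 2) (by positivity) (by linarith) hc'1
      (fun m => if 1 ≤ m then S m else ∅) (fun m => by
        by_cases hm : 1 ≤ m
        · simp only [hm, if_true]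
          exact (hS m hm).1
        · simp [hm]) hv hτ hvτ hθ
    refine ⟨X, hX, fun α hα hαX => ?_⟩
    obtain ⟨n₀, hn₀⟩ := hX2 α hα hαX 1
    refine ⟨n₀, fun l hl t ht hti => ?_⟩
    obtain ⟨m, hm, hmt⟩ := hn₀ l hl
    refine (hS m hm).2 t ht fun i => ?_
    obtain ⟨a1, a2, a3⟩ := hmt (t i) (hti i)
    rw [if_pos hm] at a3
    have hm1 : (1 : ℝ) ≤ m := by exact_mod_cast hm
    have h5 : (m : ℝ) ^ c' ≤ (m : ℝ) ^ c := Real.rpow_le_rpow_of_exponent_le hm1 (min_le_left _ _)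
    exact ⟨a1, by linarith, a3⟩
  have h2 : ∀ Ω : Matrix (Fin n) (Fin n) ℂ, IsUnit Ω → ∀ v : ℕ → ℝ, (∀ l, 1 ≤ v l) → ConvergenceExponentLe v 0 →
        ∀ᵐ α : ℝ, 0 < α → ∀ (k δ e : ℕ) (K : IntermediateField ℚ ℂ), FiniteDimensional ℚ K → ∃ θ : ℝ, 0 < θ ∧
          ∃ l₀ : ℕ, ∀ l : ℕ, l₀ ≤ l → ∀ m : Fin k → ℕ, (∀ i j, i ≠ j → (G : ℤ) ≤ |(m i : ℤ) - m j|) →
            (∀ i, |(m i : ℝ) - α * v l| ≤ (v l) ^ θ) → Functional Ω Z x₀ δ (piSpace K e) m := by
    intro Ω hΩ v hv hv0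
    have h3 : ∀ (k δ e : ℕ), ∀ᵐ α : ℝ, ∀ K ∈ {K : IntermediateField ℚ ℂ | FiniteDimensional ℚ K}, 0 < α →
        ∃ θ : ℝ, 0 < θ ∧ ∃ l₀ : ℕ, ∀ l : ℕ, l₀ ≤ l → ∀ m : Fin k → ℕ, (∀ i j, i ≠ j → (G : ℤ) ≤ |(m i : ℤ) - m j|) →
            (∀ i, |(m i : ℝ) - α * v l| ≤ (v l) ^ θ) → Functional Ω Z x₀ δ (piSpace K e) m := by
      intro k δ e
      rw [ae_ball_iff Pool.Agent.V11286.NE.countable_fields]
      intro K hK
      have hK' : FiniteDimensional ℚ K := hK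
      have hfin : Module.Finite ℚ (piSpace K e) := Pool.Agent.V11286.NE.piSpace_finite K e
      obtain ⟨c, hc0, hc1, h4⟩ := h1 k δ (Module.finrank ℚ (piSpace K e))
      obtain ⟨X, hX, hX2⟩ := h4 Ω hΩ (piSpace K e) hfin le_rfl v 0 (c / 2) hv le_rfl hv0 (by linarith)
      have hX0 : volume X = 0 := Pool.Agent.V11286.NE.vol_zero (Pool.Agent.V11286.NE.ratio_lt hc0 hc1) hX
      have hae : ∀ᵐ α : ℝ, α ∉ X := measure_eq_zero_iff_ae_notMem.1 hX0
      filter_upwards [hae] with α hα hα0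
      exact ⟨c / 2, by positivity, hX2 α hα0 hα⟩
    have h5 : ∀ᵐ α : ℝ, ∀ (k δ e : ℕ), ∀ K ∈ {K : IntermediateField ℚ ℂ | FiniteDimensional ℚ K}, 0 < α →
        ∃ θ : ℝ, 0 < θ ∧ ∃ l₀ : ℕ, ∀ l : ℕ, l₀ ≤ l → ∀ m : Fin k → ℕ, (∀ i j, i ≠ j → (G : ℤ) ≤ |(m i : ℤ) - m j|) →
            (∀ i, |(m i : ℝ) - α * v l| ≤ (v l) ^ θ) → Functional Ω Z x₀ δ (piSpace K e) m := by
      rw [ae_all_iff]
      intro k
      rw [ae_all_iff]
      intro δ
      rw [ae_all_iff]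
      intro e
      exact h3 k δ e
    filter_upwards [h5] with α h6 hα k δ e K hK
    exact h6 k δ e K hK hα
  refine ⟨h1, h2, fun Ω hΩ => ?_⟩
  have h3 := h2 Ω hΩ (fun n => (2 : ℝ) ^ n) (fun n => one_le_pow₀ (by norm_num)) Pool.Agent.V11286.NE.expLe_two
  filter_upwards [h3] with α h4 hα k δ e K hK
  obtain ⟨θ, hθ, n₀, h5⟩ := h4 hα k δ e K hK
  refine ⟨θ, hθ, n₀, fun l hl t ht hti => h5 l hl t ht fun i => ?_⟩
  refine (hti i).trans (le_of_eq ?_)
  show (2 : ℝ) ^ (θ * l) = ((2 : ℝ) ^ l) ^ θ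
  rw [← Real.rpow_natCast, ← Real.rpow_mul (by norm_num), mul_comm]

end Pool.Agent.Results.MP_f11a48_ag.SequencesWithoutExceptions
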